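import Pool.Agent.Q205.KO.Main
import Pool.Agent.Helper672.Blum.Exists

/-!
Some functional clarifies the class of countable well-orderings, while Kleene's `O` is neither
continuously nor Borel reducible to it.
-/

namespace Pool.Agent.Results.MP_f7aa94_lc.NotBorelReducible

open Pool.Agent.Q205.KO

/-- There is a functional `F` which clarifies the well-orderings such that for every acceptable
numbering the functional `x ↦ O^x` is neither continuously nor Borel reducible to `F`; acceptable
numberings exist. -/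
theorem result :
    (∃ F : (ℕ → Bool) → (ℕ → Bool), Clarifies F ∧
      ∀ φ : ℕ → (ℕ → Bool) → ℕ →. ℕ, Acceptable φ →
        ¬ ContinuouslyReducible (kleeneO φ) F ∧ ¬ BorelReducible (kleeneO φ) F) ∧
    ∃ φ : ℕ → (ℕ → Bool) → ℕ →. ℕ, Acceptable φ := by
  refine ⟨⟨Fc, clarifies_Fc, fun φ hφ => ⟨?_, not_borelReducible hφ⟩⟩, ?_⟩
  · rintro ⟨R₀, R₁, hR₀, hR₁, h⟩
    exact not_borelReducible hφ ⟨R₀, R₁, hR₀.measurable, hR₁.measurable, h⟩
  · obtain ⟨B⟩ := Pool.Agent.Helper672.Blum.relBlum_nonempty
    exact ⟨B.φ, exists_acceptable B⟩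

end Pool.Agent.Results.MP_f7aa94_lc.NotBorelReducible
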